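import Pool.Agent.H7.HD.Targets6

/-!
# Module IN of the board hd4_modules (MP_e37c09_lc): intersections of closed cofinal sets
-/

open Ordinal Cardinal Order Set

universe u

namespace Pool.Agent.H58.HD6

open _root_.HD

theorem lim_of_cof {ν : Ordinal.{u}} (h : ℵ₀ < ν.cof) : IsSuccLimit ν :=
  Ordinal.one_lt_cof_iff.1 (Cardinal.one_lt_aleph0.trans h)

theorem null_compl {κ : Ordinal.{u}} {q : Ordinal.{u} → Ordinal.{u}}
    {e m : Ordinal.{u} → Ordinal.{u} → Ordinal.{u}} {ν : Ordinal.{u}} (hν : ℵ₀ < ν.cof)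
    {X : Set Ordinal.{u}} (hX : Mb κ q e m ν X) : ¬ Pos (ℵ₀ : Cardinal.{u}).ord ν Xᶜ := by
  intro hpos
  have hlim := lim_of_cof hν
  have hC : Clb ν {x | ∀ y < x, ∃ z ∈ X, y < z ∧ z < x} := by
    refine ⟨?_, ?_⟩
    · intro a ha
      obtain ⟨x, hx, s, hs0, hsx, hP, hcof⟩ := Pool.Agent.H3.HD.exists_iter hν
        (fun b b' => ∃ z ∈ X, b < z ∧ z < b') (fun b hb => by
          obtain ⟨z, hz, hbz⟩ := hX.cf b hb
          have hzν := hX.lt z hz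
          exact ⟨succ z, hlim.succ_lt hzν, hbz.trans (lt_succ z), z, hz, hbz, lt_succ z⟩) a ha
      refine ⟨x, hx, ?_, ?_⟩
      · rw [← hs0]
        exact hsx 0
      · intro y hy
        obtain ⟨n, hn⟩ := hcof y hy
        obtain ⟨z, hz, h1, h2⟩ := hP n
        exact ⟨z, hz, hn.trans h1, h2.trans (hsx (n + 1))⟩
    · intro x hx _ h y hy
      obtain ⟨z, hzx, hyz, hz⟩ := h y hy
      obtain ⟨w, hw, h1, h2⟩ := hz y hyz
      exact ⟨w, hw, h1, h2.trans hzx⟩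
  obtain ⟨b, hb, hbC, hbX, hcf⟩ := hpos _ hC
  apply hbX
  have h1 : b.cof = ℵ₀ := Cardinal.ord_injective hcf
  obtain ⟨z, hz, hbz⟩ := hX.cf b hb
  exact hX.cld.oc b h1 hbC ⟨z, hz, hbz.le⟩

theorem in_ : T_IN.{u} := by
  intro κ q e m ν τ hν hτ0 hτ X hX
  have hlim := lim_of_cof hν
  refine ⟨⟨?_, ?_, ?_, ?_⟩, ?_, ?_⟩
  · intro y hy hyκ z hz i hi
    exact (hX i hi).cld.ini y (hy i hi) hyκ z hz
  · intro b hb hκb x hx hxq i hi
    exact (hX i hi).cld.ce b (hb i hi) hκb x (hx i hi) hxq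
  · intro b hb hκb z hz hzb i hi
    exact (hX i hi).cld.cm b (hb i hi) hκb z (hz i hi) hzb
  · intro x hx h1 h2 i hi
    refine (hX i hi).cld.oc x hx ?_ ?_
    · intro y hy
      obtain ⟨z, hz, h⟩ := h1 y hy
      exact ⟨z, hz i hi, h⟩
    · obtain ⟨z, hz, h⟩ := h2
      exact ⟨z, hz i hi, h⟩
  · intro z hz
    exact (hX 0 hτ0).lt z (hz 0 hτ0)
  · intro y hy
    have h1 : ¬ Pos (ℵ₀ : Cardinal.{u}).ord ν {b | ∃ i < τ, b ∈ (X i)ᶜ} :=
      All.va _ ν hν τ hτ (fun i => (X i)ᶜ) fun i hi => null_compl hν (hX i hi)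
    have h2 : Pos (ℵ₀ : Cardinal.{u}).ord ν univ := All.vc ℵ₀ ν Cardinal.isRegular_aleph0 hν
    have h3 : ¬ Pos (ℵ₀ : Cardinal.{u}).ord ν (Iio (succ y)) :=
      All.vb _ ν (succ y) hlim (hlim.succ_lt hy)
    obtain ⟨b, -, ⟨-, hb1⟩, hb2⟩ := Pool.Agent.H20.HD.CS.pos_ex hlim
      (pos_diff All.va hν (pos_diff All.va hν h2 h1) h3)
    refine ⟨b, ?_, ?_⟩
    · intro i hi
      by_contra h
      exact hb1 ⟨i, hi, h⟩
    · by_contra h
      exact hb2 (lt_succ_iff.2 (not_lt.1 h))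

end Pool.Agent.H58.HD6
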