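import Pool.Agent.H7.HD.Targets6
import Pool.Agent.H2.HD.UV

/-!
# Module CL of the board hd4_modules (MP_e37c09_lc): almost all sets `f '' γ` are closed
-/

open Ordinal Cardinal Order Set

universe u

namespace Pool.Agent.H58.HD6

open _root_.HD

theorem cl (hCB : T_CB.{u}) : T_CL.{u} := by
  classical
  intro K lam q e m f hK hK0 hKl hEM hf
  have h0K : 0 < K.ord := by
    rw [Cardinal.ord_pos]
    exact Cardinal.aleph0_pos.trans hK0
  have honto := hf.onto
  choose! i hi hfi using honto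
  let G1 : Ordinal.{u} → Ordinal.{u} → Ordinal.{u} := fun x y =>
    if e (f x) (f y) < lam then i (e (f x) (f y)) else 0
  let G2 : Ordinal.{u} → Ordinal.{u} → Ordinal.{u} := fun x y =>
    if m (f x) (f y) < lam then i (m (f x) (f y)) else 0
  let G3 : Ordinal.{u} → Ordinal.{u} → Ordinal.{u} := fun x y =>
    if sSup {z | z ∈ f '' Iio x ∧ z < f y} < lam then i (sSup {z | z ∈ f '' Iio x ∧ z < f y})
    else 0
  let G4 : Ordinal.{u} → Ordinal.{u} → Ordinal.{u} := fun x _ => if x < lam then i x else 0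
  let G5 : Ordinal.{u} → Ordinal.{u} → Ordinal.{u} := fun x _ => if f x < K.ord then f x else 0
  let G : Ordinal.{u} → Ordinal.{u} → Ordinal.{u} := fun x y =>
    max (G1 x y) (max (G2 x y) (max (G3 x y) (max (G4 x y) (G5 x y))))
  have hG : ∀ x < K.ord, ∀ y < K.ord, G x y < K.ord := by
    intro x _ y _
    refine max_lt ?_ (max_lt ?_ (max_lt ?_ (max_lt ?_ ?_)))
    · simp only [G1]
      split_ifs with h
      · exact hi _ h
      · exact h0K
    · simp only [G2]
      split_ifs with h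
      · exact hi _ h
      · exact h0K
    · simp only [G3]
      split_ifs with h
      · exact hi _ h
      · exact h0K
    · simp only [G4]
      split_ifs with h
      · exact hi _ h
      · exact h0K
    · simp only [G5]
      split_ifs with h
      · exact h
      · exact h0K
  refine ⟨_, hCB K hK hK0 G hG, ?_⟩
  rintro γ ⟨-, hγ⟩ hγK hγc
  have hlim : IsSuccLimit γ := Ordinal.one_lt_cof_iff.1 (Cardinal.one_lt_aleph0.trans hγc)
  have hb1 : ∀ x < γ, ∀ y < γ, G1 x y < γ := fun x hx y hy =>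
    (le_max_left _ _).trans_lt (hγ x hx y hy)
  have hb2 : ∀ x < γ, ∀ y < γ, G2 x y < γ := fun x hx y hy =>
    ((le_max_left _ _).trans (le_max_right _ _)).trans_lt (hγ x hx y hy)
  have hb3 : ∀ x < γ, ∀ y < γ, G3 x y < γ := fun x hx y hy =>
    (((le_max_left _ _).trans (le_max_right _ _)).trans (le_max_right _ _)).trans_lt
      (hγ x hx y hy)
  have hb4 : ∀ x < γ, ∀ y < γ, G4 x y < γ := fun x hx y hy =>
    ((((le_max_left _ _).trans (le_max_right _ _)).trans (le_max_right _ _)).trans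
      (le_max_right _ _)).trans_lt (hγ x hx y hy)
  have hb5 : ∀ x < γ, ∀ y < γ, G5 x y < γ := fun x hx y hy =>
    ((((le_max_right _ _).trans (le_max_right _ _)).trans (le_max_right _ _)).trans
      (le_max_right _ _)).trans_lt (hγ x hx y hy)
  have hflam : ∀ x < γ, f x < lam := fun x hx => hf.lt x (hx.trans hγK)
  refine ⟨?_, ?_, ?_, ?_⟩
  · rintro y ⟨x, hx, rfl⟩ hyK z hz
    have h1 : f x < γ := by
      have := hb5 x hx x hx
      simp only [G5] at this
      rwa [if_pos hyK] at this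
    have hzγ : z < γ := hz.trans h1
    have hzl : z < lam := (hz.trans hyK).trans_le hKl
    have h2 : i z < γ := by
      have := hb4 z hzγ z hzγ
      simp only [G4] at this
      rwa [if_pos hzl] at this
    exact ⟨i z, h2, hfi z hzl⟩
  · rintro b ⟨x, hx, rfl⟩ _ y ⟨x2, hx2, rfl⟩ hyq
    have h1 : e (f x) (f x2) < lam := (hEM.el _ _ hyq).trans (hflam x hx)
    have h2 : i (e (f x) (f x2)) < γ := by
      have := hb1 x hx x2 hx2
      simp only [G1] at this
      rwa [if_pos h1] at this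
    exact ⟨_, h2, hfi _ h1⟩
  · rintro b ⟨x, hx, rfl⟩ _ y ⟨x2, hx2, rfl⟩ hyb
    have h1 : m (f x) (f x2) < lam :=
      ((hEM.ml _ _ hyb).trans_le (hEM.ql _)).trans (hflam x hx)
    have h2 : i (m (f x) (f x2)) < γ := by
      have := hb2 x hx x2 hx2
      simp only [G2] at this
      rwa [if_pos h1] at this
    exact ⟨_, h2, hfi _ h1⟩
  · intro x hxc hcof hge
    have hxlim : IsSuccLimit x := Ordinal.one_lt_cof_iff.1 (Cardinal.one_lt_aleph0.trans_le hxc.ge)
    obtain ⟨a, ⟨haX, hxa⟩, hmin⟩ := WellFounded.has_min (wellFounded_lt (α := Ordinal.{u}))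
      {z | z ∈ f '' Iio γ ∧ x ≤ z} hge
    obtain ⟨y0, hy0, hfy0⟩ := haX
    obtain ⟨g, hg1, -, hg3⟩ := Pool.Agent.H2.HD.UV.exists_seq hxlim
    have hch : ∀ j : Ordinal.{u}, j < x.cof.ord → ∃ ξ < γ, g j < f ξ ∧ f ξ < x := by
      intro j hj
      obtain ⟨z, ⟨ξ, hξ, rfl⟩, h1, h2⟩ := hcof (g j) (hg1 j hj)
      exact ⟨ξ, hξ, h1, h2⟩
    choose! ξ hξ1 hξ2 hξ3 using hch
    have hcard : (x.cof.ord).card < γ.cof := by
      rw [Cardinal.card_ord, hxc]
      exact hγc
    obtain ⟨s, hs, hsb⟩ := Pool.Agent.H3.HD.exists_bound hcard ξ hξ1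
    have hsγ : succ s < γ := hlim.succ_lt hs
    have hsup : sSup {z | z ∈ f '' Iio (succ s) ∧ z < f y0} = x := by
      apply le_antisymm
      · apply csSup_le'
        rintro z ⟨⟨w, hw, rfl⟩, hza⟩
        by_contra hcon
        push Not at hcon
        exact hmin (f w) ⟨⟨w, lt_trans hw hsγ, rfl⟩, hcon.le⟩ (by rw [← hfy0]; exact hza)
      · by_contra hcon
        push Not at hcon
        obtain ⟨j, hj, hyj⟩ := hg3 _ hcon
        have h1 : f (ξ j) ∈ {z | z ∈ f '' Iio (succ s) ∧ z < f y0} := by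
          refine ⟨⟨ξ j, lt_succ_iff.2 (hsb j hj), rfl⟩, ?_⟩
          rw [hfy0]
          exact (hξ3 j hj).trans_le hxa
        have h2 : f (ξ j) ≤ sSup {z | z ∈ f '' Iio (succ s) ∧ z < f y0} := by
          apply le_csSup _ h1
          exact ⟨f y0, fun z hz => hz.2.le⟩
        exact absurd (hyj.trans (hξ2 j hj)) (not_lt.2 h2)
    have hxl : x < lam := by
      refine hxa.trans_lt ?_
      rw [← hfy0]
      exact hflam y0 hy0
    have h2 : i x < γ := by
      have := hb3 (succ s) hsγ y0 hy0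
      simp only [G3] at this
      rwa [hsup, if_pos hxl] at this
    exact ⟨i x, h2, hfi x hxl⟩

end Pool.Agent.H58.HD6
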