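import Pool.Agent.H58.HD6.IN

/-!
# Module LS of the board hd4_modules (MP_e37c09_lc): the least closed cofinal set
-/

open Ordinal Cardinal Order Set

universe u

namespace Pool.Agent.H58.HD6

open _root_.HD

variable {κ : Ordinal.{u}} {q : Ordinal.{u} → Ordinal.{u}}
  {e m : Ordinal.{u} → Ordinal.{u} → Ordinal.{u}} {ν : Ordinal.{u}}

theorem mb_inter (hν : ℵ₀ < ν.cof) {X X' : Set Ordinal.{u}} (hX : Mb κ q e m ν X)
    (hX' : Mb κ q e m ν X') : Mb κ q e m ν (X ∩ X') := by
  classical
  have h2 : (2 : Ordinal.{u}).card < ν.cof := by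
    have : (2 : Ordinal.{u}).card = 2 := by simp
    rw [this]
    exact (Cardinal.nat_lt_aleph0 2).trans hν
  have h := in_ κ q e m ν 2 hν (by norm_num) h2 (fun i => if i = 0 then X else X') (by
    intro i _
    by_cases hi : i = 0
    · simpa [hi] using hX
    · simpa [hi] using hX')
  have he : {z | ∀ i < (2 : Ordinal.{u}), z ∈ (if i = 0 then X else X')} = X ∩ X' := by
    ext z
    constructor
    · intro hz
      refine ⟨?_, ?_⟩
      · have := hz 0 (by norm_num)
        simpa using this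
      · have := hz 1 (by norm_num)
        simpa using this
    · rintro ⟨h1, h2⟩ i _
      by_cases hi : i = 0
      · simpa [hi] using h1
      · simpa [hi] using h2
  rw [← he]
  exact h

theorem minl (a : Ordinal.{u}) (G : Set Ordinal.{u} → Prop) (hG : ∃ X, G X)
    (hcap : ∀ X X', G X → Mb κ q e m ν X' → G (X ∩ X')) :
    ∃ X0, G X0 ∧ ∀ X', Mb κ q e m ν X' → ∀ z ∈ X0, z < a → z ∉ X' →
      ∃ w ∈ X0, w ∈ X' ∧ w < a ∧ z < w := by
  let S : Set Ordinal.{u} := {c | ∃ X, G X ∧ ∀ z ∈ X, z < a → z < c}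
  have hS : S.Nonempty := by
    obtain ⟨X, hX⟩ := hG
    exact ⟨a, X, hX, fun z _ h => h⟩
  obtain ⟨c, ⟨X0, hX0, hc⟩, hmin⟩ := WellFounded.has_min (wellFounded_lt (α := Ordinal.{u})) S hS
  refine ⟨X0, hX0, ?_⟩
  intro X' hX' z hz hza hzX'
  by_contra hcon
  push Not at hcon
  have h1 : z ∈ S := by
    refine ⟨X0 ∩ X', hcap X0 X' hX0 hX', ?_⟩
    rintro w ⟨hw, hw'⟩ hwa
    have h2 := hcon w hw hw' hwa
    refine lt_of_le_of_ne h2 ?_
    rintro rfl
    exact hzX' hw'
  exact hmin z h1 (hc z hz hza)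

theorem ls : T_LS.{u} := by
  classical
  intro κ q e m ν τ g hEM hν hτ hg hex
  have main : ∀ a : Ordinal.{u}, a ≤ ν → ∃ X, Mb κ q e m ν X ∧
      ∀ X', Mb κ q e m ν X' → ∀ z ∈ X, z < a → z ∈ X' := by
    intro a
    induction a using WellFoundedLT.induction with
    | ind a ih =>
      intro haν
      by_cases haκ : a ≤ κ
      · obtain ⟨X0, hX0, h⟩ := minl (κ := κ) (q := q) (e := e) (m := m) (ν := ν) a
          (fun X => Mb κ q e m ν X) hex (fun X X' h h' => mb_inter hν h h')
        refine ⟨X0, hX0, ?_⟩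
        intro X' hX' z hz hza
        by_contra hzX'
        obtain ⟨w, -, hw', hwa, hzw⟩ := h X' hX' z hz hza hzX'
        exact hzX' (hX'.cld.ini w hw' (hwa.trans_le haκ) z hzw)
      · push Not at haκ
        by_cases hc : ∃ t, κ ≤ t ∧ t < a ∧ ∀ b, t ≤ b → b < a → q b ≤ t
        · obtain ⟨t, hκt, hta, hqt⟩ := hc
          obtain ⟨Xt, hXt, hXt'⟩ := ih t hta (hta.le.trans haν)
          obtain ⟨X0, hX0, h⟩ := minl (κ := κ) (q := q) (e := e) (m := m) (ν := ν) a
            (fun X => Mb κ q e m ν X ∧ ∀ z ∈ X, z < t → z ∈ Xt) ⟨Xt, hXt, fun z hz _ => hz⟩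
            (fun X X' h h' => ⟨mb_inter hν h.1 h', fun z hz hzt => h.2 z hz.1 hzt⟩)
          refine ⟨X0, hX0.1, ?_⟩
          intro X' hX' z hz hza
          rcases lt_or_ge z t with hzt | htz
          · exact hXt' X' hX' z (hX0.2 z hz hzt) hzt
          · by_contra hzX'
            obtain ⟨w, hw, hw', hwa, hzw⟩ := h X' hX' z hz hza hzX'
            have htw : t ≤ w := htz.trans hzw.le
            have hκw : κ ≤ w := hκt.trans htw
            have h1 : m w z ∈ X0 := hX0.1.cld.cm w hw hκw z hz hzw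
            have h2 : m w z < q w := hEM.ml w z hzw
            have h3 : m w z < t := h2.trans_le (hqt w htw hwa)
            have h4 : m w z ∈ X' := hXt' X' hX' _ (hX0.2 _ h1 h3) h3
            have h5 := hX'.cld.ce w hw' hκw _ h4 h2
            rw [hEM.em w z hzw] at h5
            exact hzX' h5
        · push Not at hc
          obtain ⟨X1, hX1⟩ := hex
          have hfam : ∀ i : Ordinal.{u}, ∃ X, Mb κ q e m ν X ∧ (g i < a →
              ∀ X', Mb κ q e m ν X' → ∀ z ∈ X, z < g i → z ∈ X') := by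
            intro i
            by_cases hi : g i < a
            · obtain ⟨X, hX, hX'⟩ := ih (g i) hi (hi.le.trans haν)
              exact ⟨X, hX, fun _ => hX'⟩
            · exact ⟨X1, hX1, fun h => absurd h hi⟩
          choose X hX hX' using hfam
          have hτ0 : 0 < τ := by
            obtain ⟨b, hb, hba, -⟩ := hc κ le_rfl haκ
            obtain ⟨i, hi, -⟩ := hg b hb (hba.trans_le haν)
            exact (zero_le (a := i)).trans_lt hi
          refine ⟨{z | ∀ i < τ, z ∈ X i}, in_ κ q e m ν τ hν hτ0 hτ X fun i _ => hX i, ?_⟩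
          intro Y hY z hz hza
          have hκmax : max κ z < a := max_lt haκ hza
          obtain ⟨b, hb, hba, hqb⟩ := hc (max κ z) (le_max_left _ _) hκmax
          obtain ⟨i, hi, hgi⟩ := hg b ((le_max_left _ _).trans hb) (hba.trans_le haν)
          have h1 : g i < a := by
            rw [hgi]
            exact (hEM.ql b).trans_lt hba
          refine hX' i h1 Y hY z (hz i hi) ?_
          rw [hgi]
          exact (le_max_right _ _).trans_lt hqb
  obtain ⟨X, hX, hX'⟩ := main ν le_rfl
  have he : Zs κ q e m ν = X := by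
    ext z
    constructor
    · intro hz
      exact hz.2 X hX
    · intro hz
      exact ⟨hX.lt z hz, fun X1 hX1 => hX' X1 hX1 z hz (hX.lt z hz)⟩
  rw [he]
  exact hX

end Pool.Agent.H58.HD6
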